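import Pool.Agent.W2helper42.HL.Stm
import Pool.Agent.Helper834.EC.Dim1
import Pool.Agent.Y761.GS.Bcm1

/-!
Project HL (MP_130685_nt, owner helper42), piece A_IRR: the closure of a point over an
algebraically closed field `K` is irreducible over `ℂ`, of dimension the transcendence degree.
-/

set_option autoImplicit false

namespace Pool.Agent.W2helper3.HL

open MvPolynomial TensorProduct Pool.Agent.W2helper42.HL

section base

variable {k L : Type} [Field k] [Field L] [Algebra k L]

theorem krull_int {F A : Type} [Field F] [CommRing A] [Algebra F A] (s : ℕ)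
    (g : MvPolynomial (Fin s) F →ₐ[F] A) (hg1 : Function.Injective g) (hg2 : g.IsIntegral) :
    ringKrullDim A = s := by
  let _ : Algebra (MvPolynomial (Fin s) F) A := g.toRingHom.toAlgebra
  have : Algebra.IsIntegral (MvPolynomial (Fin s) F) A := ⟨hg2⟩
  have h1 : ringKrullDim A ≤ ringKrullDim (MvPolynomial (Fin s) F) :=
    Pool.Agent.Helper834.EC.ringKrullDim_le_of_integral
  have h2 : ringKrullDim (MvPolynomial (Fin s) F) ≤ ringKrullDim A :=
    Pool.Agent.Helper834.EC.ringKrullDim_ge_of_integral hg1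
  rw [le_antisymm h1 h2, MvPolynomial.ringKrullDim_of_isNoetherianRing,
    ringKrullDim_eq_zero_of_field]
  simp

/-- base change and Krull dimension -/
theorem krull_base (A : Type) [CommRing A] [IsDomain A] [Algebra k A]
    [Algebra.FiniteType k A] : ringKrullDim (L ⊗[k] A) = ringKrullDim A := by
  obtain ⟨s, g, hg1, hg2⟩ := exists_integral_inj_algHom_of_fg k A
  rw [krull_int s g hg1 hg2]
  let G0 : L ⊗[k] MvPolynomial (Fin s) k →ₐ[L] L ⊗[k] A :=
    Algebra.TensorProduct.map (AlgHom.id L L) g
  have hG1 : Function.Injective G0 :=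
    Module.Flat.lTensor_preserves_injective_linearMap (M := L) g.toLinearMap hg1
  have hG2 : G0.IsIntegral := by
    intro z
    induction z using TensorProduct.induction_on with
    | zero => exact RingHom.isIntegralElem_zero _
    | add z z' hz hz' => exact RingHom.IsIntegralElem.add _ hz hz'
    | tmul c a =>
      have h1 : (c ⊗ₜ[k] a : L ⊗[k] A) = (c ⊗ₜ 1) * (1 ⊗ₜ a) := by
        rw [Algebra.TensorProduct.tmul_mul_tmul, mul_one, one_mul]
      rw [h1]
      refine RingHom.IsIntegralElem.mul _ ?_ ?_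
      · have h2 : (c ⊗ₜ[k] (1 : A) : L ⊗[k] A) = G0 (c ⊗ₜ 1) := by
          rw [Algebra.TensorProduct.map_tmul, map_one]
          rfl
        rw [h2]
        exact RingHom.isIntegralElem_map _
      · obtain ⟨p, hp1, hp2⟩ := hg2 a
        let i1 : MvPolynomial (Fin s) k →+* L ⊗[k] MvPolynomial (Fin s) k :=
          (Algebra.TensorProduct.includeRight :
            MvPolynomial (Fin s) k →ₐ[k] L ⊗[k] MvPolynomial (Fin s) k).toRingHom
        let i2 : A →+* L ⊗[k] A :=
          (Algebra.TensorProduct.includeRight : A →ₐ[k] L ⊗[k] A).toRingHom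
        refine ⟨p.map i1, hp1.map _, ?_⟩
        rw [Polynomial.eval₂_map]
        have h3 : (G0 : L ⊗[k] MvPolynomial (Fin s) k →+* L ⊗[k] A).comp i1 =
            i2.comp (g : MvPolynomial (Fin s) k →+* A) := by
          apply RingHom.ext
          intro q
          change G0 (1 ⊗ₜ q) = 1 ⊗ₜ g q
          rw [Algebra.TensorProduct.map_tmul]
          rfl
        have h4 : Polynomial.eval₂ (i2.comp (g : MvPolynomial (Fin s) k →+* A)) (i2 a) p = 0 := by
          rw [← Polynomial.hom_eval₂]
          have h5 : Polynomial.eval₂ (g : MvPolynomial (Fin s) k →+* A) a p = 0 := hp2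
          rw [h5, map_zero]
        rw [← h3] at h4
        exact h4
  refine krull_int s (G0.comp (algebraTensorAlgEquiv k L).symm.toAlgHom) ?_ ?_
  · exact hG1.comp (algebraTensorAlgEquiv k L).symm.injective
  · intro z
    obtain ⟨p, hp1, hp2⟩ := hG2 z
    refine ⟨p.map (algebraTensorAlgEquiv (σ := Fin s) k L).toAlgHom.toRingHom,
      hp1.map _, ?_⟩
    rw [Polynomial.eval₂_map]
    have h3 : ((G0.comp (algebraTensorAlgEquiv k L).symm.toAlgHom).toRingHom).comp
        (algebraTensorAlgEquiv (σ := Fin s) k L).toAlgHom.toRingHom =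
        (G0 : L ⊗[k] MvPolynomial (Fin s) k →+* L ⊗[k] A) := by
      apply RingHom.ext
      intro q
      change G0 ((algebraTensorAlgEquiv k L).symm (algebraTensorAlgEquiv k L q)) = G0 q
      rw [AlgEquiv.symm_apply_apply]
    rw [h3]
    exact hp2

end base

theorem a_irr : A_IRR := by
  intro ι _ K hK x
  have hac : IsAlgClosed K := hK.2
  obtain ⟨A, hA⟩ : ∃ A : Subalgebra K ℂ, A = Algebra.adjoin K (Set.range x) := ⟨_, rfl⟩
  have hxA : ∀ i, x i ∈ A := fun i => by
    rw [hA]
    exact Algebra.subset_adjoin ⟨i, rfl⟩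
  have hft : Algebra.FiniteType K A := by
    rw [← Subalgebra.fg_iff_finiteType, hA]
    exact Subalgebra.fg_def.2 ⟨_, Set.finite_range x, rfl⟩
  let a : ι → A := fun i => ⟨x i, hxA i⟩
  have hval : ∀ f : MvPolynomial ι K, ((aeval a f : A) : ℂ) = aeval x f := by
    intro f
    exact (MvPolynomial.comp_aeval_apply a A.val f).symm ▸ rfl
  have hsurj : Function.Surjective (aeval a : MvPolynomial ι K →ₐ[K] A) := by
    rintro ⟨q, hq⟩
    have h1 := hq
    rw [hA, Algebra.adjoin_range_eq_range_aeval] at h1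
    obtain ⟨f, hf⟩ := h1
    refine ⟨f, Subtype.ext ?_⟩
    rw [hval]
    exact hf
  have hdom : IsDomain (ℂ ⊗[K] A) := by
    have h1 : IsDomain (A ⊗[K] ℂ) := Pool.Agent.Y761.GS.isDomain_tensor
    exact (Algebra.TensorProduct.comm K ℂ A).toMulEquiv.isDomain
  let e : MvPolynomial ι ℂ →ₐ[ℂ] ℂ ⊗[K] A := aeval (fun i => (1 : ℂ) ⊗ₜ[K] a i)
  have he : ∀ f : MvPolynomial ι K, e (map (algebraMap K ℂ) f) = (1 : ℂ) ⊗ₜ[K] aeval a f := by
    intro f
    change aeval (fun i => (1 : ℂ) ⊗ₜ[K] a i) (map (algebraMap K ℂ) f) = _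
    rw [MvPolynomial.aeval_map_algebraMap]
    exact (MvPolynomial.comp_aeval_apply a
      (Algebra.TensorProduct.includeRight : A →ₐ[K] ℂ ⊗[K] A) f).symm
  have hes : Function.Surjective e := by
    intro z
    induction z using TensorProduct.induction_on with
    | zero => exact ⟨0, map_zero _⟩
    | add z z' hz hz' =>
      obtain ⟨u, hu⟩ := hz
      obtain ⟨u', hu'⟩ := hz'
      exact ⟨u + u', by rw [map_add, hu, hu']⟩
    | tmul c q =>
      obtain ⟨f, hf⟩ := hsurj q
      refine ⟨c • map (algebraMap K ℂ) f, ?_⟩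
      rw [map_smul, he, hf, TensorProduct.smul_tmul', smul_eq_mul, mul_one]
  let P : Ideal (MvPolynomial ι ℂ) := RingHom.ker e
  have hP : P.IsPrime := RingHom.ker_isPrime e
  have hcl : cl K x = zeroLocus ℂ P := by
    ext y
    constructor
    · intro hy f hf
      have hy' : ∀ g : MvPolynomial ι K, g ∈ RingHom.ker (aeval a : MvPolynomial ι K →ₐ[K] A) →
          aeval y g = 0 := by
        intro g hg
        apply hy g
        rw [← hval, (RingHom.mem_ker).1 hg]
        rfl
      let φ : A →ₐ[K] ℂ := (Ideal.Quotient.liftₐ (RingHom.ker (aeval a : MvPolynomial ι K →ₐ[K] A))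
        (aeval y) hy').comp (Ideal.quotientKerAlgEquivOfSurjective hsurj).symm.toAlgHom
      have hφ : ∀ i, φ (a i) = y i := by
        intro i
        have h1 : (Ideal.quotientKerAlgEquivOfSurjective hsurj).symm (a i) =
            Ideal.Quotient.mk _ (X i) := by
          rw [AlgEquiv.symm_apply_eq]
          change a i = aeval a (X i)
          rw [aeval_X]
        change Ideal.Quotient.liftₐ _ (aeval y) hy'
          ((Ideal.quotientKerAlgEquivOfSurjective hsurj).symm (a i)) = y i
        rw [h1]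
        change aeval y (X i) = y i
        rw [aeval_X]
      let Ψ : ℂ ⊗[K] A →ₐ[ℂ] ℂ := Algebra.TensorProduct.lift (AlgHom.id ℂ ℂ) φ
        (fun _ _ => Commute.all _ _)
      have hΨ : Ψ.comp e = aeval y := by
        apply MvPolynomial.algHom_ext
        intro i
        rw [AlgHom.comp_apply, aeval_X, aeval_X, Algebra.TensorProduct.lift_tmul, hφ, map_one, one_mul]
      rw [← hΨ, AlgHom.comp_apply, (RingHom.mem_ker).1 hf, map_zero]
    · intro hy f hf
      have h1 : map (algebraMap K ℂ) f ∈ P := by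
        rw [RingHom.mem_ker, he]
        have h2 : aeval a f = 0 := Subtype.ext (by rw [hval, hf]; rfl)
        rw [h2, TensorProduct.tmul_zero]
      have h3 := hy _ h1
      rwa [MvPolynomial.aeval_map_algebraMap] at h3
  refine ⟨⟨P, hP, ?_⟩, ?_⟩
  · rw [hcl]
    ext y
    rw [mem_zeroLocus_iff]
    rfl
  · have h1 : vanishingIdeal ℂ (cl K x) = P := by
      rw [hcl, IsPrime.vanishingIdeal_zeroLocus]
    rw [dim, h1]
    have h2 : ringKrullDim (MvPolynomial ι ℂ ⧸ P) = ringKrullDim (ℂ ⊗[K] A) :=
      ringKrullDim_eq_of_ringEquiv (Ideal.quotientKerAlgEquivOfSurjective hes).toRingEquiv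
    rw [h2, krull_base]
    obtain ⟨s, hs1, hs2⟩ := Pool.Agent.Helper834.EC.exists_ringKrullDim_eq_trdeg K A
    rw [hs1, td, ← hA, hs2]
    simp

end Pool.Agent.W2helper3.HL
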