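import Pool.Agent.W2helper42.HL.Stm

/-!
Project HL (MP_130685_nt, owner helper42), pieces A_LE, A_SUM_LE, A_SUM_GE: transcendence degrees.
-/

set_option autoImplicit false

namespace Pool.Agent.W2helper3.HL

open UpperHalfPlane H294ZP MvPolynomial Pool.Agent.W2helper42.HL Cardinal

section

variable (K : Subfield ℂ)

open scoped IntermediateField.algebraAdjoinAdjoin in
theorem trdeg_adj (F : Type) [Field F] [Algebra F ℂ] (S : Set ℂ) :
    Algebra.trdeg F (IntermediateField.adjoin F S) = Algebra.trdeg F (Algebra.adjoin F S) := by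
  have h1 := trdeg_add_eq F (Algebra.adjoin F S) (A := IntermediateField.adjoin F S)
  rw [← h1, trdeg_eq_zero (R := Algebra.adjoin F S), add_zero]

/-- transcendence degree of `K(S)` -/
noncomputable def tr (S : Set ℂ) : Cardinal := Algebra.trdeg K (IntermediateField.adjoin K S)

theorem td_eq {ι : Type} (x : ι → ℂ) : td K x = (tr K (Set.range x)).toNat := by
  rw [tr, trdeg_adj]
  rfl

theorem trdeg_le_card (F : Type) [Field F] [Algebra F ℂ] (S : Set ℂ) :
    Algebra.trdeg F (IntermediateField.adjoin F S) ≤ #S := by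
  rw [trdeg_adj]
  have h : Algebra.trdeg F (Algebra.adjoin F S) ≤ #(((↑) : Algebra.adjoin F S → ℂ) ⁻¹' S) := by
    have h1 : Algebra.adjoin F (((↑) : Algebra.adjoin F S → ℂ) ⁻¹' S) = ⊤ :=
      Algebra.adjoin_adjoin_coe_preimage
    have h2 : Algebra.IsAlgebraic
        (Algebra.adjoin F (((↑) : Algebra.adjoin F S → ℂ) ⁻¹' S)) (Algebra.adjoin F S) := by
      rw [h1]
      exact (Algebra.isIntegral_of_surjective
        (R := (⊤ : Subalgebra F (Algebra.adjoin F S))) (B := Algebra.adjoin F S)
        (fun y => ⟨⟨y, trivial⟩, rfl⟩)).isAlgebraic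
    exact Algebra.IsAlgebraic.trdeg_le_cardinalMk F _
  refine h.trans ?_
  exact Cardinal.mk_preimage_of_injective _ _ Subtype.val_injective

theorem tr_fin {S : Set ℂ} (hS : S.Finite) : tr K S < ℵ₀ :=
  (trdeg_le_card K S).trans_lt (Cardinal.lt_aleph0_iff_set_finite.2 hS)

theorem tr_mono_field {S T : Set ℂ}
    (h : IntermediateField.adjoin K S ≤ IntermediateField.adjoin K T) : tr K S ≤ tr K T :=
  trdeg_le_of_injective (IntermediateField.inclusion h)
    (IntermediateField.inclusion h).injective

theorem tr_add {S T : Set ℂ} (h : IntermediateField.adjoin K S ≤ IntermediateField.adjoin K T) :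
    tr K T = tr K S + Algebra.trdeg (IntermediateField.adjoin K S)
      (IntermediateField.extendScalars h) := by
  have h1 := trdeg_add_eq K (IntermediateField.adjoin K S)
    (A := IntermediateField.extendScalars h)
  rw [tr, tr, h1]
  rfl

theorem ext_eq (S T : Set ℂ)
    (h0 : IntermediateField.adjoin K S ≤ IntermediateField.adjoin K (S ∪ T)) :
    IntermediateField.extendScalars h0 =
      IntermediateField.adjoin (IntermediateField.adjoin K S) T := by
  apply IntermediateField.restrictScalars_injective K
  rw [IntermediateField.extendScalars_restrictScalars,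
    IntermediateField.adjoin_adjoin_left]

theorem tr_alg {S T : Set ℂ}
    (h : ∀ s ∈ S, IsAlgebraic (IntermediateField.adjoin K T) s) : tr K S ≤ tr K T := by
  have h0 : IntermediateField.adjoin K T ≤ IntermediateField.adjoin K (T ∪ S) :=
    IntermediateField.adjoin.mono _ _ _ Set.subset_union_left
  have h1 : IntermediateField.adjoin K S ≤ IntermediateField.adjoin K (T ∪ S) :=
    IntermediateField.adjoin.mono _ _ _ Set.subset_union_right
  refine (tr_mono_field K h1).trans ?_
  rw [tr_add K h0]
  have h3 : Algebra.IsAlgebraic (IntermediateField.adjoin K T)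
      (IntermediateField.extendScalars h0) := by
    rw [ext_eq]
    exact IntermediateField.isAlgebraic_adjoin fun s hs => (h s hs).isIntegral
  rw [trdeg_eq_zero, add_zero]

theorem tr_union_le (S T : Set ℂ) : tr K (S ∪ T) ≤ tr K S + #T := by
  have h0 : IntermediateField.adjoin K S ≤ IntermediateField.adjoin K (S ∪ T) :=
    IntermediateField.adjoin.mono _ _ _ Set.subset_union_left
  rw [tr_add K h0, ext_eq]
  gcongr
  exact trdeg_le_card _ T

theorem tr_ge {S U : Set ℂ} {m : ℕ} (t : Fin m → ℂ)
    (h : IntermediateField.adjoin K S ≤ IntermediateField.adjoin K U)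
    (ht : AlgebraicIndependent (IntermediateField.adjoin K S) t)
    (hU : ∀ j, t j ∈ IntermediateField.adjoin K U) : tr K S + m ≤ tr K U := by
  rw [tr_add K h]
  gcongr
  let t' : Fin m → IntermediateField.extendScalars h := fun j => ⟨t j, hU j⟩
  have h1 : AlgebraicIndependent (IntermediateField.adjoin K S) t' := by
    refine AlgebraicIndependent.of_comp
      (IntermediateField.val (IntermediateField.extendScalars h)) ?_
    exact ht
  have h2 := h1.lift_cardinalMk_le_trdeg
  simpa using h2

end

theorem a_le : A_LE := by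
  intro ι _ K x m t h
  rw [td_eq]
  have h1 : tr K (Set.range x) ≤ tr K (Set.range t) := by
    refine tr_alg K ?_
    rintro _ ⟨i, rfl⟩
    exact h i
  have h2 : tr K (Set.range t) ≤ m := by
    refine (trdeg_le_card K _).trans ?_
    refine (Cardinal.mk_range_le).trans ?_
    simp
  exact Cardinal.toNat_le_iff_le_of_lt_aleph0 (tr_fin K (Set.finite_range x))
    (Cardinal.natCast_lt_aleph0) |>.2 (h1.trans h2) |>.trans (by simp)

theorem a_sum_le : A_SUM_LE := by
  intro ι ω _ _ K x w m t h
  rw [td_eq, td_eq]
  have h1 : tr K (Set.range (Sum.elim x w)) ≤ tr K (Set.range (Sum.elim x t)) := by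
    refine tr_alg K ?_
    rintro _ ⟨i, rfl⟩
    rcases i with i | j
    · have h2 : x i ∈ IntermediateField.adjoin K (Set.range (Sum.elim x t)) :=
        IntermediateField.subset_adjoin _ _ ⟨Sum.inl i, rfl⟩
      exact isAlgebraic_algebraMap
        (⟨x i, h2⟩ : IntermediateField.adjoin K (Set.range (Sum.elim x t)))
    · exact h j
  have h2 : tr K (Set.range (Sum.elim x t)) ≤ tr K (Set.range x) + m := by
    rw [Set.Sum.elim_range]
    refine (tr_union_le K _ _).trans ?_
    gcongr
    refine (Cardinal.mk_range_le).trans ?_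
    simp
  have h3 := h1.trans h2
  obtain ⟨a, ha⟩ := Cardinal.lt_aleph0.1 (tr_fin K (Set.finite_range x))
  obtain ⟨b, hb⟩ := Cardinal.lt_aleph0.1 (tr_fin K (Set.finite_range (Sum.elim x w)))
  rw [ha, hb] at h3 ⊢
  simp only [Cardinal.toNat_natCast]
  exact_mod_cast h3

theorem a_sum_ge : A_SUM_GE := by
  intro ι ω _ _ K x w m t ht h
  rw [td_eq, td_eq]
  have h0 : IntermediateField.adjoin K (Set.range x) ≤
      IntermediateField.adjoin K (Set.range (Sum.elim x w)) := by
    apply IntermediateField.adjoin.mono
    rw [Set.Sum.elim_range]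
    exact Set.subset_union_left
  have h3 := tr_ge K t h0 ht h
  obtain ⟨a, ha⟩ := Cardinal.lt_aleph0.1 (tr_fin K (Set.finite_range x))
  obtain ⟨b, hb⟩ := Cardinal.lt_aleph0.1 (tr_fin K (Set.finite_range (Sum.elim x w)))
  rw [ha, hb] at h3 ⊢
  simp only [Cardinal.toNat_natCast]
  exact_mod_cast h3

end Pool.Agent.W2helper3.HL
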